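import Pool.Agent.PW.StmtsA

set_option autoImplicit false

/-!
# Squad PW: row FGP (helper92)
-/

namespace Pool.Agent.PW.H92

open MvPolynomial
open Pool.Agent.RS (FF io)
open Pool.Agent.PW

/-- In characteristic `0`, a variable whose derivation kills f does not occur. -/
theorem notMem_vars_of_pderiv {E : Type} [Field E] [CharZero E] (i : ℕ) (f : MvPolynomial ℕ E)
    (h : pderiv i f = 0) : i ∉ f.vars := by
  classical
  intro hi
  obtain ⟨m, hm, hmi⟩ := (mem_vars_iff_mem_support i).1 hi
  have hmi0 : m i ≠ 0 := Finsupp.mem_support_iff.1 hmi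
  have h1 : (m - Finsupp.single i 1) + Finsupp.single i 1 = m := by
    ext j
    simp only [Finsupp.coe_add, Finsupp.coe_tsub, Pi.add_apply, Pi.sub_apply]
    by_cases hj : i = j
    · subst hj
      simp only [Finsupp.single_eq_same]
      omega
    · simp only [Finsupp.single_apply, if_neg hj]
      omega
  have h2 := coeff_pderiv f (m - Finsupp.single i 1) (i := i)
  rw [h, coeff_zero, h1] at h2
  have h3 : coeff m f ≠ 0 := mem_support_iff.1 hm
  have h4 : (((m - Finsupp.single i 1 : ℕ →₀ ℕ) i : ℕ) : E) + 1 ≠ 0 := by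
    have h6 : ((((m - Finsupp.single i 1 : ℕ →₀ ℕ) i + 1 : ℕ)) : E) ≠ 0 :=
      Nat.cast_ne_zero.2 (Nat.succ_ne_zero _)
    rwa [Nat.cast_add, Nat.cast_one] at h6
  rcases mul_eq_zero.1 h2.symm with h5 | h5
  · exact h3 h5
  · exact h4 h5

theorem fgp (hder : DerStmt) : FgpStmt := by
  intro E _ _ G g
  obtain ⟨hd, -, -⟩ := hder E
  refine ⟨?_, ?_, ?_, ?_, ?_⟩
  · intro hg i hi j hj
    rw [hd, hd, hg j i (fun h => hj (by rw [h]; exact Finset.mem_insert_self i G)) (Or.inr hi),
      map_zero]
  · intro hg i hi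
    rw [hd, pderiv_eq_zero_of_notMem_vars (fun h => hi (hg h)), map_zero]
  · refine ⟨{ carrier := {f | IsUG G f}, add_mem' := ?_, zero_mem' := ?_, smul_mem' := ?_ },
      fun f => Iff.rfl⟩
    · intro a b ha hb i j hij hG
      rw [map_add, map_add, ha i j hij hG, hb i j hij hG, add_zero]
    · intro i j _ _
      rw [map_zero, map_zero]
    · intro c a ha i j hij hG
      rw [Derivation.map_smul, Derivation.map_smul, ha i j hij hG, smul_zero]
  · intro hg
    refine ⟨fun j hj i hi => ?_, fun j hj i hi => ?_⟩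
    · by_contra hij
      rw [Finset.mem_singleton] at hij
      exact notMem_vars_of_pderiv i _ (hg i j hij (Or.inr hj)) hi
    · by_contra hiG
      exact notMem_vars_of_pderiv i _ (hg i j (fun h => hiG (h ▸ hj)) (Or.inl hiG)) hi
  · intro G' hGG hg i j hij h
    exact hg i j hij (h.imp (fun h1 h2 => h1 (hGG h2)) (fun h1 h2 => h1 (hGG h2)))

end Pool.Agent.PW.H92
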